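import Pool.Agent.helper70.QSD.SpecC

/-!
# qsd:CLB — subfields generated by countable sets with finite orbits
-/

set_option linter.unusedVariables false

namespace Pool.Agent.helper70.QSD

open Pool.Agent.helper53.AU
open scoped Classical IntermediateField Polynomial

noncomputable section

theorem CLB_iter_add (Φ : KS ≃+* KS) (n : ℕ) (x y : KS) :
    (⇑Φ)^[n] (x + y) = (⇑Φ)^[n] x + (⇑Φ)^[n] y := by
  induction n with
  | zero => rfl
  | succ n ih => rw [Function.iterate_succ_apply', Function.iterate_succ_apply',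
      Function.iterate_succ_apply', ih, map_add]

theorem CLB_iter_mul (Φ : KS ≃+* KS) (n : ℕ) (x y : KS) :
    (⇑Φ)^[n] (x * y) = (⇑Φ)^[n] x * (⇑Φ)^[n] y := by
  induction n with
  | zero => rfl
  | succ n ih => rw [Function.iterate_succ_apply', Function.iterate_succ_apply',
      Function.iterate_succ_apply', ih, map_mul]

theorem CLB_iter_neg (Φ : KS ≃+* KS) (n : ℕ) (x : KS) :
    (⇑Φ)^[n] (-x) = -(⇑Φ)^[n] x := by
  induction n with
  | zero => rfl
  | succ n ih => rw [Function.iterate_succ_apply', Function.iterate_succ_apply', ih, map_neg]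

theorem CLB_iter_inv (Φ : KS ≃+* KS) (n : ℕ) (x : KS) :
    (⇑Φ)^[n] (x⁻¹) = ((⇑Φ)^[n] x)⁻¹ := by
  induction n with
  | zero => rfl
  | succ n ih => rw [Function.iterate_succ_apply', Function.iterate_succ_apply', ih, map_inv₀]

theorem CLB_iter_one (Φ : KS ≃+* KS) (n : ℕ) :
    (⇑Φ)^[n] (1 : KS) = 1 := by
  induction n with
  | zero => rfl
  | succ n ih => rw [Function.iterate_succ_apply', ih, map_one]

theorem CLB_iter_zero (Φ : KS ≃+* KS) (n : ℕ) :
    (⇑Φ)^[n] (0 : KS) = 0 := by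
  induction n with
  | zero => rfl
  | succ n ih => rw [Function.iterate_succ_apply', ih, map_zero]

theorem CLB_mul_right (f : KS → KS) (a b : ℕ) (x : KS) (h : f^[a] x = x) : f^[a * b] x = x := by
  rw [Function.iterate_mul]
  exact Function.iterate_fixed h b

theorem CLB_mul_left (f : KS → KS) (a b : ℕ) (x : KS) (h : f^[b] x = x) : f^[a * b] x = x := by
  rw [mul_comm]
  exact CLB_mul_right f b a x h

/-- the subfield of the elements with a finite orbit -/
def CLB_fin (Φ : KS ≃+* KS) : Subfield KS where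
  carrier := {x | ∃ e : ℕ, 1 ≤ e ∧ (⇑Φ)^[e] x = x}
  mul_mem' := by
    rintro x y ⟨a, ha, hx⟩ ⟨b, hb, hy⟩
    refine ⟨a * b, Nat.mul_le_mul ha hb, ?_⟩
    rw [CLB_iter_mul, CLB_mul_right _ a b x hx, CLB_mul_left _ a b y hy]
  one_mem' := ⟨1, le_rfl, CLB_iter_one Φ 1⟩
  add_mem' := by
    rintro x y ⟨a, ha, hx⟩ ⟨b, hb, hy⟩
    refine ⟨a * b, Nat.mul_le_mul ha hb, ?_⟩
    rw [CLB_iter_add, CLB_mul_right _ a b x hx, CLB_mul_left _ a b y hy]
  zero_mem' := ⟨1, le_rfl, CLB_iter_zero Φ 1⟩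
  neg_mem' := by
    rintro x ⟨a, ha, hx⟩
    refine ⟨a, ha, ?_⟩
    rw [CLB_iter_neg, hx]
  inv_mem' := by
    rintro x ⟨a, ha, hx⟩
    refine ⟨a, ha, ?_⟩
    rw [CLB_iter_inv, hx]

theorem CLB_fin_mem (Φ : KS ≃+* KS) (x : KS) :
    x ∈ CLB_fin Φ ↔ ∃ e : ℕ, 1 ≤ e ∧ (⇑Φ)^[e] x = x := Iff.rfl

theorem CLB_part2 (Φ : KS ≃+* KS) (S : Set KS) (hc : S.Countable)
    (ho : ∀ x ∈ S, ∃ e : ℕ, 1 ≤ e ∧ (⇑Φ)^[e] x = x) (hs : ∀ x ∈ S, Φ x ∈ S) :
    Countable (Subfield.closure S) ∧ (∀ x ∈ Subfield.closure S, ∃ e : ℕ, 1 ≤ e ∧ (⇑Φ)^[e] x = x) ∧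
      ∀ x ∈ Subfield.closure S, Φ x ∈ Subfield.closure S := by
  refine ⟨?_, ?_, ?_⟩
  · have : Countable S := hc.to_subtype
    have h1 : Cardinal.mk (Subfield.closure S) ≤ max (Cardinal.mk S) Cardinal.aleph0 :=
      Subfield.cardinalMk_closure_le_max S
    rw [← Cardinal.mk_le_aleph0_iff]
    exact h1.trans (max_le (Cardinal.mk_le_aleph0_iff.2 this) le_rfl)
  · have h : Subfield.closure S ≤ CLB_fin Φ :=
      Subfield.closure_le.2 fun x hx => (CLB_fin_mem Φ x).2 (ho x hx)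
    intro x hx
    exact (CLB_fin_mem Φ x).1 (h hx)
  · have h : Subfield.closure S ≤ (Subfield.closure S).comap (Φ : KS →+* KS) :=
      Subfield.closure_le.2 fun x hx => Subfield.mem_comap.2 (Subfield.subset_closure (hs x hx))
    intro x hx
    exact Subfield.mem_comap.1 (h hx)

theorem CLB : CLB_stmt := by
  refine ⟨?_, CLB_part2⟩
  intro Φ A hA y hy
  have hcl : (A⟮y⟯).toSubfield = Subfield.closure ((A : Set KS) ∪ {y}) := by
    have h1 : (A⟮y⟯).toSubfield = Subfield.closure (Set.range (algebraMap A KS) ∪ {y}) := rfl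
    have h2 : Set.range (algebraMap A KS) = (A : Set KS) := Subtype.range_coe
    rw [h1, h2]
  have h := CLB_part2 Φ ((A : Set KS) ∪ {y})
    (Set.Countable.union (by have := hA.ctb; exact Set.countable_coe_iff.1 this) (Set.countable_singleton y))
    (by
      rintro x (hx | hx)
      · exact hA.orb x hx
      · rw [Set.mem_singleton_iff.1 hx]
        exact ⟨1, le_rfl, hy⟩)
    (by
      rintro x (hx | hx)
      · exact Or.inl (hA.stb x hx)
      · rw [Set.mem_singleton_iff.1 hx, hy]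
        exact Or.inr rfl)
  rw [hcl]
  refine ⟨h.1, h.2.1, h.2.2, ?_, ?_⟩
  · intro x hx
    exact Subfield.subset_closure (Or.inl hx)
  · exact Subfield.subset_closure (Or.inr rfl)

end

end Pool.Agent.helper70.QSD
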